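import Pool.Agent.Q255.EP.Stm3
import Pool.Agent.W762.EC.SSA
import Pool.Agent.H442R2.EHI.PntErr

/-! # Project EP (helper255), job AGG: the discrepancy of the modulus `3`, summed over `N` -/

set_option autoImplicit false

namespace Pool.Agent.Q241.EP

open Finset Filter Topology

/-- powers of the logarithm against the square root -/
theorem lg (A : ℝ) (hA : 0 ≤ A) : ∃ C : ℝ, 0 < C ∧ ∀ Z : ℕ, 2 ≤ Z →
    Real.log Z ^ A * (1 + Real.log Z) ≤ C * √(Z : ℝ) := by
  obtain ⟨K, hK⟩ := exists_nat_ge A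
  obtain ⟨C, hC, h⟩ := Pool.Agent.H442R2.EHI.PntErrAux.log_pow_le (K + 1)
  refine ⟨3 ^ (K + 1) * C, by positivity, fun Z hZ => ?_⟩
  have hZ0 : (2 : ℝ) ≤ Z := by exact_mod_cast hZ
  have h2 : Real.log 2 ≤ Real.log Z := Real.log_le_log (by norm_num) hZ0
  have h3 := Real.log_two_gt_d9
  have hl : 0 < Real.log Z := by linarith
  have h4 : 1 + Real.log Z ≤ 3 * Real.log Z := by linarith
  have h5 : Real.log Z ^ A ≤ (1 + Real.log Z) ^ K := by
    calc Real.log Z ^ A ≤ (1 + Real.log Z) ^ A := Real.rpow_le_rpow hl.le (by linarith) hA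
      _ ≤ (1 + Real.log Z) ^ (K : ℝ) := Real.rpow_le_rpow_of_exponent_le (by linarith) hK
      _ = _ := Real.rpow_natCast _ _
  calc Real.log Z ^ A * (1 + Real.log Z) ≤ (1 + Real.log Z) ^ K * (1 + Real.log Z) :=
        mul_le_mul_of_nonneg_right h5 (by linarith)
    _ = (1 + Real.log Z) ^ (K + 1) := (pow_succ _ _).symm
    _ ≤ (3 * Real.log Z) ^ (K + 1) := pow_le_pow_left₀ (by linarith) h4 _
    _ = 3 ^ (K + 1) * Real.log Z ^ (K + 1) := mul_pow _ _ _
    _ ≤ 3 ^ (K + 1) * (C * √(Z : ℝ)) := mul_le_mul_of_nonneg_left (h Z (by omega)) (by positivity)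
    _ = _ := by ring

/-- eventual bounds are uniform bounds -/
theorem unif (A : ℝ) (hA : 0 ≤ A) (f : ℕ → ℝ) (D : ℝ) (hD : 0 ≤ D)
    (h0 : ∀ Y : ℕ, |f Y| ≤ D * (Y * (1 + Real.log Y)))
    (C : ℝ) (h1 : ∀ᶠ Y : ℕ in atTop, |f Y| ≤ C * (Y / Real.log Y ^ A)) :
    ∃ C' : ℝ, 0 ≤ C' ∧ ∀ Z Y : ℕ, 2 ≤ Z → Y ≤ Z → |f Y| ≤ C' * (Z / Real.log Z ^ A) := by
  obtain ⟨Y0, hY0⟩ := eventually_atTop.1 h1
  obtain ⟨C2, hC2, h2⟩ := lg A hA
  have hlY0 : 0 ≤ Real.log Y0 := Real.log_natCast_nonneg Y0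
  refine ⟨|C| * 2 ^ A + D * C2 + D * (Y0 * (1 + Real.log Y0)) * C2, by positivity, ?_⟩
  intro Z Y hZ hYZ
  have hZ0 : (2 : ℝ) ≤ Z := by exact_mod_cast hZ
  have hZp : (0 : ℝ) < Z := by linarith
  have hl : 0 < Real.log Z := Real.log_pos (by linarith)
  have hlA : 0 < Real.log Z ^ A := Real.rpow_pos_of_pos hl A
  have hs0 : 0 < √(Z : ℝ) := Real.sqrt_pos.2 hZp
  have hss : √(Z : ℝ) * √(Z : ℝ) = Z := Real.mul_self_sqrt hZp.le
  have hlY : 0 ≤ Real.log Y := Real.log_natCast_nonneg Y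
  have hq0 : 0 ≤ (Z : ℝ) / Real.log Z ^ A := by positivity
  have hsq : √(Z : ℝ) * (1 + Real.log Z) ≤ C2 * (Z / Real.log Z ^ A) := by
    rw [← mul_div_assoc, le_div_iff₀ hlA]
    calc √(Z : ℝ) * (1 + Real.log Z) * Real.log Z ^ A =
        √(Z : ℝ) * (Real.log Z ^ A * (1 + Real.log Z)) := by ring
      _ ≤ √(Z : ℝ) * (C2 * √(Z : ℝ)) := mul_le_mul_of_nonneg_left (h2 Z hZ) hs0.le
      _ = C2 * (√(Z : ℝ) * √(Z : ℝ)) := by ring
      _ = C2 * Z := by rw [hss]
  have hs1 : 1 ≤ √(Z : ℝ) := by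
    rw [Real.one_le_sqrt]
    linarith
  have hone : 1 ≤ C2 * (Z / Real.log Z ^ A) := by
    refine le_trans ?_ hsq
    nlinarith
  have p1 : 0 ≤ |C| * 2 ^ A * (Z / Real.log Z ^ A) := by positivity
  have p2 : 0 ≤ D * C2 * (Z / Real.log Z ^ A) := by positivity
  have p3 : 0 ≤ D * (Y0 * (1 + Real.log Y0)) * C2 * (Z / Real.log Z ^ A) := by positivity
  have hsplit : (|C| * 2 ^ A + D * C2 + D * (Y0 * (1 + Real.log Y0)) * C2) * (Z / Real.log Z ^ A) =
      |C| * 2 ^ A * (Z / Real.log Z ^ A) + D * C2 * (Z / Real.log Z ^ A) +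
        D * (Y0 * (1 + Real.log Y0)) * C2 * (Z / Real.log Z ^ A) := by ring
  rw [hsplit]
  by_cases hYY : Y * Y ≤ Z
  · have h3 : (Y : ℝ) ≤ √(Z : ℝ) := by
      refine Real.le_sqrt_of_sq_le ?_
      rw [sq]
      exact_mod_cast hYY
    have h4 : Real.log Y ≤ Real.log Z := by
      rcases Nat.eq_zero_or_pos Y with h | h
      · rw [h, Nat.cast_zero, Real.log_zero]
        exact hl.le
      · exact Real.log_le_log (by exact_mod_cast h) (by exact_mod_cast hYZ)
    have h5 : (Y : ℝ) * (1 + Real.log Y) ≤ √(Z : ℝ) * (1 + Real.log Z) :=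
      mul_le_mul h3 (by linarith) (by linarith) hs0.le
    have h6 : D * (Y * (1 + Real.log Y)) ≤ D * (C2 * (Z / Real.log Z ^ A)) :=
      mul_le_mul_of_nonneg_left (h5.trans hsq) hD
    have h7 := h0 Y
    linarith
  · have hYY' : Z < Y * Y := by omega
    by_cases hY : Y0 ≤ Y
    · have hYpos : 0 < Y := by
        rcases Nat.eq_zero_or_pos Y with h | h
        · rw [h] at hYY'
          omega
        · exact h
      have hYp : (0 : ℝ) < Y := by exact_mod_cast hYpos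
      have h3 : Real.log Z / 2 ≤ Real.log Y := by
        have h4 : Real.log Z ≤ Real.log ((Y : ℝ) ^ 2) := by
          refine Real.log_le_log hZp ?_
          rw [sq]
          exact_mod_cast hYY'.le
        rw [Real.log_pow, Nat.cast_ofNat] at h4
        linarith
      have h4 : Real.log Z ^ A / 2 ^ A ≤ Real.log Y ^ A := by
        rw [← Real.div_rpow hl.le (by norm_num)]
        exact Real.rpow_le_rpow (by positivity) h3 hA
      have h5 : C * (Y / Real.log Y ^ A) ≤ |C| * (Z / (Real.log Z ^ A / 2 ^ A)) := by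
        refine mul_le_mul (le_abs_self C) ?_ (by positivity) (abs_nonneg C)
        exact div_le_div₀ hZp.le (by exact_mod_cast hYZ) (by positivity) h4
      have h6 : |C| * (Z / (Real.log Z ^ A / 2 ^ A)) = |C| * 2 ^ A * (Z / Real.log Z ^ A) := by
        field_simp
      have h7 := hY0 Y hY
      linarith
    · have h3 : (Y : ℝ) ≤ Y0 := by exact_mod_cast (not_le.1 hY).le
      have h4 : Real.log Y ≤ Real.log Y0 := by
        rcases Nat.eq_zero_or_pos Y with h | h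
        · rw [h, Nat.cast_zero, Real.log_zero]
          exact hlY0
        · exact Real.log_le_log (by exact_mod_cast h) h3
      have h5 : (Y : ℝ) * (1 + Real.log Y) ≤ Y0 * (1 + Real.log Y0) :=
        mul_le_mul h3 (by linarith) (by linarith) (Nat.cast_nonneg _)
      have h6 : D * (Y * (1 + Real.log Y)) ≤ D * (Y0 * (1 + Real.log Y0)) :=
        mul_le_mul_of_nonneg_left h5 hD
      have h7 : D * (Y0 * (1 + Real.log Y0)) * 1 ≤
          D * (Y0 * (1 + Real.log Y0)) * (C2 * (Z / Real.log Z ^ A)) :=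
        mul_le_mul_of_nonneg_left hone (by positivity)
      have h8 := h0 Y
      linarith

/-- the character modulo `3` -/
noncomputable def ch (n : ℕ) : ℝ := if n % 3 = 1 then 1 else if n % 3 = 2 then -1 else 0

theorem abs_ch (n : ℕ) : |ch n| ≤ 1 := by
  unfold ch
  split_ifs <;> simp

noncomputable def P0 (Y : ℕ) : ℝ := ∑ n ∈ Icc 1 Y, ArithmeticFunction.vonMangoldt n
noncomputable def P3 (Y : ℕ) : ℝ :=
  ∑ n ∈ Icc 1 Y, ArithmeticFunction.vonMangoldt n * (if 3 ∣ n then 1 else 0)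
noncomputable def PX (Y : ℕ) : ℝ := ∑ n ∈ Icc 1 Y, ArithmeticFunction.vonMangoldt n * ch n

theorem triv (Y : ℕ) (w : ℕ → ℝ) (hw : ∀ n, |w n| ≤ 1) (s : Finset ℕ) (hs : s ⊆ Icc 1 Y) :
    |∑ n ∈ s, ArithmeticFunction.vonMangoldt n * w n| ≤ Y * Real.log Y := by
  have h1 : ∀ n ∈ s, |ArithmeticFunction.vonMangoldt n * w n| ≤ Real.log Y := by
    intro n hn
    have hn' := mem_Icc.1 (hs hn)
    rw [abs_mul, abs_of_nonneg ArithmeticFunction.vonMangoldt_nonneg]
    have h2 : ArithmeticFunction.vonMangoldt n ≤ Real.log n := ArithmeticFunction.vonMangoldt_le_log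
    have h3 : Real.log n ≤ Real.log Y :=
      Real.log_le_log (by exact_mod_cast hn'.1) (by exact_mod_cast hn'.2)
    have h4 : 0 ≤ Real.log n := Real.log_natCast_nonneg n
    calc ArithmeticFunction.vonMangoldt n * |w n| ≤ Real.log Y * 1 :=
          mul_le_mul (h2.trans h3) (hw n) (abs_nonneg _) (h4.trans h3)
      _ = _ := mul_one _
  refine (abs_sum_le_sum_abs _ _).trans ((sum_le_card_nsmul _ _ _ h1).trans ?_)
  rw [nsmul_eq_mul]
  refine mul_le_mul_of_nonneg_right ?_ (Real.log_natCast_nonneg Y)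
  have := card_le_card hs
  rw [Nat.card_Icc] at this
  exact_mod_cast (by omega : s.card ≤ Y)

theorem psi_eq (Y : ℕ) : Chebyshev.psi (Y : ℝ) = P0 Y := by
  unfold Chebyshev.psi P0
  rw [Nat.floor_natCast]
  rfl

theorem psi_unif (A : ℝ) (hA : 0 ≤ A) : ∃ C : ℝ, 0 ≤ C ∧ ∀ Z Y : ℕ, 2 ≤ Z → Y ≤ Z →
    |P0 Y - Y| ≤ C * (Z / Real.log Z ^ A) := by
  obtain ⟨K, hK⟩ := exists_nat_ge A
  obtain ⟨C, hC, N₁, h⟩ := Pool.Agent.H442R2.EHI.PntErrAux.largeU K
  obtain ⟨C2, hC2, h2⟩ := lg A hA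
  refine unif A hA (fun Y => P0 Y - Y) 1 zero_le_one ?_ (C + 2 * C2) ?_
  · intro Y
    have h1 := triv Y (fun _ => 1) (fun _ => by simp) (Icc 1 Y) (Subset.refl _)
    simp only [mul_one] at h1
    have h3 : |P0 Y - Y| ≤ |P0 Y| + |(Y : ℝ)| := abs_sub _ _
    have hY : (0 : ℝ) ≤ Y := Nat.cast_nonneg Y
    rw [abs_of_nonneg hY] at h3
    unfold P0 at h3 ⊢
    linarith
  · filter_upwards [eventually_ge_atTop N₁, eventually_ge_atTop 3] with Y hY hY3
    have hY0 : (3 : ℝ) ≤ Y := by exact_mod_cast hY3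
    have hYp : (0 : ℝ) < Y := by linarith
    have hl1 : 1 ≤ Real.log Y := by
      rw [Real.le_log_iff_exp_le hYp]
      have := Real.exp_one_lt_d9
      linarith
    have hlA : 0 < Real.log Y ^ A := Real.rpow_pos_of_pos (by linarith) A
    have h1 := h Y hY
    rw [psi_eq] at h1
    have h3 : (Y : ℝ) / Real.log Y ^ K ≤ Y / Real.log Y ^ A := by
      refine div_le_div_of_nonneg_left hYp.le hlA ?_
      rw [← Real.rpow_natCast]
      exact Real.rpow_le_rpow_of_exponent_le hl1 hK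
    have h4 := h2 Y (by omega)
    have h5 : 1 ≤ C2 * (Y / Real.log Y ^ A) := by
      rw [← mul_div_assoc, le_div_iff₀ hlA, one_mul]
      have h6 : √(Y : ℝ) ≤ Y := Real.sqrt_le_left hYp.le |>.2 (by nlinarith)
      have h7 : Real.log Y ^ A * 1 ≤ Real.log Y ^ A * (1 + Real.log Y) :=
        mul_le_mul_of_nonneg_left (by linarith) hlA.le
      have h8 : C2 * √(Y : ℝ) ≤ C2 * Y := mul_le_mul_of_nonneg_left h6 hC2.le
      linarith
    have h6 := mul_le_mul_of_nonneg_left h3 hC.le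
    calc |P0 Y - Y| ≤ _ := h1
      _ ≤ C * (Y / Real.log Y ^ A) + 2 * (C2 * (Y / Real.log Y ^ A)) := by linarith
      _ = _ := by ring

/-- the complex character modulo `3` -/
noncomputable def χ3 : DirichletCharacter ℂ 3 :=
  (quadraticChar (ZMod 3)).ringHomComp (Int.castRingHom ℂ)

theorem χ3_apply (n : ℕ) : χ3 (n : ZMod 3) = ((ch n : ℝ) : ℂ) := by
  unfold χ3 ch
  rw [MulChar.ringHomComp_apply]
  have h : n % 3 < 3 := Nat.mod_lt _ (by norm_num)
  have h1 : (n : ZMod 3) = ((n % 3 : ℕ) : ZMod 3) := (ZMod.natCast_mod n 3).symm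
  rw [h1]
  generalize n % 3 = r at h
  interval_cases r
  · simp
  · simp
  · have : quadraticChar (ZMod 3) ((2 : ℕ) : ZMod 3) = -1 := by decide
    rw [this]
    simp

theorem χ3_prim : χ3.IsPrimitive := by
  rw [DirichletCharacter.isPrimitive_def]
  have h1 := DirichletCharacter.conductor_dvd_level χ3
  rcases (Nat.dvd_prime Nat.prime_three).1 h1 with h | h
  · exfalso
    have h2 : χ3 = 1 := DirichletCharacter.eq_one_iff_conductor_eq_one.2 h
    have h3 := χ3_apply 2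
    rw [h2] at h3
    have h4 : IsUnit ((2 : ℕ) : ZMod 3) := by decide
    rw [MulChar.one_apply h4] at h3
    norm_num [ch] at h3
  · exact h

theorem chi_unif (A : ℝ) (hA : 0 ≤ A) : ∃ C : ℝ, 0 ≤ C ∧ ∀ Z Y : ℕ, 2 ≤ Z → Y ≤ Z →
    |PX Y| ≤ C * (Z / Real.log Z ^ A) := by
  obtain ⟨K, hK⟩ := exists_nat_ge A
  obtain ⟨x1, hx1⟩ := Pool.Agent.W762.EC.SSA.psiC_bound K 1
  refine unif A hA PX 1 zero_le_one ?_ 10 ?_
  · intro Y
    have h1 := triv Y ch abs_ch (Icc 1 Y) (Subset.refl _)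
    have h2 : (0 : ℝ) ≤ Y := Nat.cast_nonneg Y
    unfold PX
    linarith
  · have t1 : Tendsto (fun N : ℕ => Real.log (N : ℝ)) atTop atTop :=
      Real.tendsto_log_atTop.comp tendsto_natCast_atTop_atTop
    filter_upwards [tendsto_natCast_atTop_atTop.eventually_ge_atTop x1, t1.eventually_ge_atTop 3,
      eventually_ge_atTop 3] with Y hY hlog hY3
    have hY0 : (3 : ℝ) ≤ Y := by exact_mod_cast hY3
    have hYp : (0 : ℝ) < Y := by linarith
    have hlA : 0 < Real.log Y ^ A := Real.rpow_pos_of_pos (by linarith) A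
    have h1 := hx1 Y hY 3 (by norm_num) (by rw [pow_one]; exact_mod_cast hlog) χ3 χ3_prim
    have h2 : Pool.Agent.H262R3.Lk.SWQ.psiC Y 3 χ3 = ((PX Y : ℝ) : ℂ) := by
      unfold Pool.Agent.H262R3.Lk.SWQ.psiC PX
      rw [Nat.floor_natCast, Complex.ofReal_sum]
      refine sum_congr rfl fun n _ => ?_
      rw [χ3_apply, Complex.ofReal_mul]
    rw [h2, Complex.norm_real, Real.norm_eq_abs] at h1
    refine h1.trans ?_
    rw [mul_div_assoc]
    refine mul_le_mul_of_nonneg_left ?_ (by norm_num)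
    refine div_le_div_of_nonneg_left hYp.le hlA ?_
    rw [← Real.rpow_natCast]
    exact Real.rpow_le_rpow_of_exponent_le (by linarith) hK

theorem P3_unif (A : ℝ) (hA : 0 ≤ A) : ∃ C : ℝ, 0 ≤ C ∧ ∀ Z Y : ℕ, 2 ≤ Z → Y ≤ Z →
    |P3 Y| ≤ C * (Z / Real.log Z ^ A) := by
  obtain ⟨C1, h1⟩ := Chebyshev.psi_sub_theta_le_mul_sqrt
  obtain ⟨C2, hC2, h2⟩ := lg A hA
  refine ⟨(|C1| + 2) * C2, by positivity, fun Z Y hZ hYZ => ?_⟩
  have hZ0 : (2 : ℝ) ≤ Z := by exact_mod_cast hZ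
  have hZp : (0 : ℝ) < Z := by linarith
  have hl : 0 < Real.log Z := Real.log_pos (by linarith)
  have hlA : 0 < Real.log Z ^ A := Real.rpow_pos_of_pos hl A
  have hs0 : 0 < √(Z : ℝ) := Real.sqrt_pos.2 hZp
  have hss : √(Z : ℝ) * √(Z : ℝ) = Z := Real.mul_self_sqrt hZp.le
  have hs1 : 1 ≤ √(Z : ℝ) := by
    rw [Real.one_le_sqrt]
    linarith
  have hP0 : 0 ≤ P3 Y := by
    unfold P3
    refine sum_nonneg fun n _ => mul_nonneg ArithmeticFunction.vonMangoldt_nonneg ?_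
    split_ifs <;> norm_num
  rw [abs_of_nonneg hP0]
  have h3 : P3 Y ≤ (Chebyshev.psi (Y : ℝ) - Chebyshev.theta (Y : ℝ)) + Real.log 3 := by
    have hth : Chebyshev.theta (Y : ℝ) =
        ∑ n ∈ Icc 1 Y, if n.Prime then ArithmeticFunction.vonMangoldt n else 0 := by
      have e : Chebyshev.theta (Y : ℝ) = ∑ p ∈ Ioc 0 Y with p.Prime, Real.log p := by
        simp [Chebyshev.theta]
      rw [e, sum_filter]
      refine sum_congr rfl fun n _ => ?_
      split_ifs with h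
      · rw [ArithmeticFunction.vonMangoldt_apply_prime h]
      · rfl
    have h4 : P3 Y ≤ ∑ n ∈ Icc 1 Y, ((ArithmeticFunction.vonMangoldt n -
        if n.Prime then ArithmeticFunction.vonMangoldt n else 0) +
        if n = 3 then Real.log 3 else 0) := by
      unfold P3
      refine sum_le_sum fun n _ => ?_
      have hn := ArithmeticFunction.vonMangoldt_nonneg (n := n)
      by_cases h5 : n = 3
      · subst h5
        rw [if_pos Nat.prime_three, if_pos rfl, if_pos (dvd_refl 3),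
          ArithmeticFunction.vonMangoldt_apply_prime Nat.prime_three]
        norm_num
      · rw [if_neg h5]
        by_cases h6 : 3 ∣ n
        · have h7 : ¬ n.Prime := by
            intro h8
            exact h5 ((Nat.prime_dvd_prime_iff_eq Nat.prime_three h8).1 h6).symm
          rw [if_pos h6, if_neg h7]
          linarith
        · rw [if_neg h6]
          split_ifs <;> linarith
    rw [sum_add_distrib, sum_sub_distrib, ← hth, sum_ite_eq'] at h4
    have h5 : ∑ n ∈ Icc 1 Y, ArithmeticFunction.vonMangoldt n = Chebyshev.psi (Y : ℝ) :=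
      (psi_eq Y).symm
    rw [h5] at h4
    have h6 : 0 ≤ Real.log 3 := Real.log_nonneg (by norm_num)
    split_ifs at h4 <;> linarith
  have h4 := h1 (x := (Y : ℝ))
  have hsY : √(Y : ℝ) ≤ √(Z : ℝ) := Real.sqrt_le_sqrt (by exact_mod_cast hYZ)
  have h5 : Real.log 3 ≤ 2 := by
    rw [Real.log_le_iff_le_exp (by norm_num)]
    have := Real.add_one_le_exp (2 : ℝ)
    linarith
  have h6 : C1 * √(Y : ℝ) ≤ |C1| * √(Z : ℝ) :=
    mul_le_mul (le_abs_self _) hsY (Real.sqrt_nonneg _) (abs_nonneg _)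
  have h7 : P3 Y ≤ (|C1| + 2) * √(Z : ℝ) := by
    have : (|C1| + 2) * √(Z : ℝ) = |C1| * √(Z : ℝ) + 2 * √(Z : ℝ) := by ring
    rw [this]
    linarith
  have h8 : √(Z : ℝ) ≤ C2 * (Z / Real.log Z ^ A) := by
    rw [← mul_div_assoc, le_div_iff₀ hlA]
    have h9 : Real.log Z ^ A ≤ C2 * √(Z : ℝ) := by
      refine le_trans ?_ (h2 Z hZ)
      calc Real.log Z ^ A = Real.log Z ^ A * 1 := (mul_one _).symm
        _ ≤ _ := mul_le_mul_of_nonneg_left (by linarith) hlA.le
    calc √(Z : ℝ) * Real.log Z ^ A ≤ √(Z : ℝ) * (C2 * √(Z : ℝ)) :=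
          mul_le_mul_of_nonneg_left h9 hs0.le
      _ = C2 * (√(Z : ℝ) * √(Z : ℝ)) := by ring
      _ = C2 * Z := by rw [hss]
  refine h7.trans ?_
  calc (|C1| + 2) * √(Z : ℝ) ≤ (|C1| + 2) * (C2 * (Z / Real.log Z ^ A)) :=
        mul_le_mul_of_nonneg_left h8 (by positivity)
    _ = _ := by ring

/-- the weights -/
noncomputable def wm (m n : ℕ) : ℝ :=
  if 3 ∣ n + m then 0 else (if 3 ∣ m then 1 else 0) - 1 / 2

theorem bracket (m Y : ℕ) :
    |∑ n ∈ Icc 1 Y, ArithmeticFunction.vonMangoldt n * wm m n - Pool.Agent.Q255.EP.c3 m * Y| ≤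
      |P0 Y - Y| + |P3 Y| + |PX Y| := by
  have key : ∀ a b c : ℝ, (∀ n : ℕ, wm m n = a + b * (if 3 ∣ n then 1 else 0) + c * ch n) →
      ∑ n ∈ Icc 1 Y, ArithmeticFunction.vonMangoldt n * wm m n = a * P0 Y + b * P3 Y + c * PX Y := by
    intro a b c h
    unfold P0 P3 PX
    rw [mul_sum, mul_sum, mul_sum, ← sum_add_distrib, ← sum_add_distrib]
    refine sum_congr rfl fun n _ => ?_
    rw [h n]
    ring
  have hm : m % 3 < 3 := Nat.mod_lt _ (by norm_num)
  have h1 := abs_nonneg (P0 Y - Y)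
  have h2 := abs_nonneg (P3 Y)
  have h3 := abs_nonneg (PX Y)
  have e1 := le_abs_self (P0 Y - Y)
  have e2 := le_abs_self (P3 Y)
  have e3 := le_abs_self (PX Y)
  have f1 := neg_abs_le (P0 Y - Y)
  have f2 := neg_abs_le (P3 Y)
  have f3 := neg_abs_le (PX Y)
  rcases (by omega : m % 3 = 0 ∨ m % 3 = 1 ∨ m % 3 = 2) with h | h | h
  · rw [key (1 / 2) (-(1 / 2)) 0 ?_]
    · have hc : Pool.Agent.Q255.EP.c3 m = 1 / 2 := by
        unfold Pool.Agent.Q255.EP.c3
        rw [if_pos (Nat.dvd_of_mod_eq_zero h)]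
      rw [hc, abs_le]
      constructor <;> linarith
    · intro n
      unfold wm
      rw [if_pos (Nat.dvd_of_mod_eq_zero h)]
      by_cases h4 : 3 ∣ n
      · rw [if_pos (by omega), if_pos h4]
        ring
      · rw [if_neg (by omega), if_neg h4]
        ring
  · rw [key (-(1 / 4)) (-(1 / 4)) (-(1 / 4)) ?_]
    · have hc : Pool.Agent.Q255.EP.c3 m = -1 / 4 := by
        unfold Pool.Agent.Q255.EP.c3
        rw [if_neg (by omega)]
      rw [hc, abs_le]
      constructor <;> linarith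
    · intro n
      unfold wm ch
      rw [if_neg (show ¬ 3 ∣ m by omega)]
      rcases (by omega : n % 3 = 0 ∨ n % 3 = 1 ∨ n % 3 = 2) with h4 | h4 | h4
      · rw [if_neg (by omega), if_pos (by omega), if_neg (by omega), if_neg (by omega)]
        ring
      · rw [if_neg (by omega), if_neg (by omega), if_pos (by omega)]
        ring
      · rw [if_pos (by omega), if_neg (by omega), if_neg (by omega), if_pos (by omega)]
        ring
  · rw [key (-(1 / 4)) (-(1 / 4)) (1 / 4) ?_]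
    · have hc : Pool.Agent.Q255.EP.c3 m = -1 / 4 := by
        unfold Pool.Agent.Q255.EP.c3
        rw [if_neg (by omega)]
      rw [hc, abs_le]
      constructor <;> linarith
    · intro n
      unfold wm ch
      rw [if_neg (show ¬ 3 ∣ m by omega)]
      rcases (by omega : n % 3 = 0 ∨ n % 3 = 1 ∨ n % 3 = 2) with h4 | h4 | h4
      · rw [if_neg (by omega), if_pos (by omega), if_neg (by omega), if_neg (by omega)]
        ring
      · rw [if_pos (by omega), if_neg (by omega), if_pos (by omega)]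
        ring
      · rw [if_neg (by omega), if_neg (by omega), if_neg (by omega), if_pos (by omega)]
        ring

/-- exchange of the sums -/
theorem exch (F : ℕ → ℕ → ℝ) (Z : ℕ) :
    ∑ N ∈ Icc 1 Z, ∑ n ∈ Ico 1 N, F n (N - n) = ∑ m ∈ Icc 1 Z, ∑ n ∈ Icc 1 (Z - m), F n m := by
  rw [sum_sigma', sum_sigma']
  refine sum_nbij' (fun x => ⟨x.1 - x.2, x.2⟩) (fun y => ⟨y.1 + y.2, y.2⟩) ?_ ?_ ?_ ?_ ?_
  · rintro ⟨a, b⟩ h
    simp only [mem_sigma, mem_Icc, mem_Ico] at h ⊢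
    omega
  · rintro ⟨a, b⟩ h
    simp only [mem_sigma, mem_Icc, mem_Ico] at h ⊢
    omega
  · rintro ⟨a, b⟩ h
    simp only [mem_sigma, mem_Icc, mem_Ico] at h
    have : a - b + b = a := by omega
    simp [this]
  · rintro ⟨a, b⟩ h
    simp
  · rintro ⟨a, b⟩ h
    rfl

/-- the term of the modulus `3` -/
noncomputable def f3 (g : ℕ → ℝ) (N : ℕ) : ℝ :=
  if 3 ∣ N then 0 else
    ∑ n ∈ (Ico 1 N).filter (fun n => n ≡ N [MOD 3]), ArithmeticFunction.vonMangoldt n * g (N - n) -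
      1 / (Nat.totient 3 : ℝ) * ∑ n ∈ Ico 1 N, ArithmeticFunction.vonMangoldt n * g (N - n)

theorem f3_eq (g : ℕ → ℝ) (N : ℕ) :
    f3 g N = ∑ n ∈ Ico 1 N, ArithmeticFunction.vonMangoldt n * g (N - n) * wm (N - n) n := by
  unfold f3
  have ht : (Nat.totient 3 : ℝ) = 2 := by
    rw [Nat.totient_prime Nat.prime_three]
    norm_num
  split_ifs with h
  · symm
    refine sum_eq_zero fun n hn => ?_
    rw [mem_Ico] at hn
    unfold wm
    rw [if_pos (by omega), mul_zero]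
  · rw [sum_filter, mul_sum, ← sum_sub_distrib, ht]
    refine sum_congr rfl fun n hn => ?_
    rw [mem_Ico] at hn
    unfold wm
    rw [if_neg (show ¬ 3 ∣ n + (N - n) by omega)]
    by_cases h4 : n ≡ N [MOD 3]
    · have h5 : 3 ∣ N - n := (Nat.modEq_iff_dvd' hn.2.le).1 h4
      rw [if_pos h4, if_pos h5]
      ring
    · have h5 : ¬ 3 ∣ N - n := fun h6 => h4 ((Nat.modEq_iff_dvd' hn.2.le).2 h6)
      rw [if_neg h4, if_neg h5]
      ring

theorem abs_wm (m n : ℕ) : |wm m n| ≤ 1 := by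
  unfold wm
  split_ifs <;> norm_num [abs_le]

theorem f3_triv (g : ℕ → ℝ) (hg : ∀ m, |g m| ≤ 1) (Y : ℕ) : |f3 g Y| ≤ 1 * (Y * (1 + Real.log Y)) := by
  rw [f3_eq]
  have h1 := triv Y (fun n => g (Y - n) * wm (Y - n) n) (fun n => by
    rw [abs_mul]
    exact mul_le_one₀ (hg _) (abs_nonneg _) (abs_wm _ _)) (Ico 1 Y) (fun n hn => by
    rw [mem_Ico] at hn
    rw [mem_Icc]
    omega)
  have h2 : (0 : ℝ) ≤ Y := Nat.cast_nonneg Y
  simp only [← mul_assoc] at h1
  linarith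

/-- JOB AGG -/
theorem agg : Pool.Agent.Q255.EP.S_AGG := by
  intro g θ A hθ hA hg hC0
  obtain ⟨C0, hC0⟩ := hC0
  obtain ⟨C1, hC1, h1⟩ := unif A hA.le (f3 g) 1 zero_le_one (f3_triv g hg) C0 (by
    have t1 : ∀ᶠ N : ℕ in atTop, (3 : ℝ) ≤ (N : ℝ) ^ θ :=
      ((tendsto_rpow_atTop hθ).comp tendsto_natCast_atTop_atTop).eventually_ge_atTop 3
    filter_upwards [hC0, t1, eventually_ge_atTop 3] with N h1 h2 h3
    have hl : 0 ≤ Real.log N := Real.log_natCast_nonneg N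
    have h4 : C0 * (N * Real.log N ^ (-A)) = C0 * (N / Real.log N ^ A) := by
      rw [Real.rpow_neg hl, div_eq_mul_inv]
    rw [h4] at h1
    refine le_trans ?_ h1
    unfold Pool.Agent.Q163.HC.Dg f3
    by_cases h5 : 3 ∣ N
    · rw [if_pos h5, abs_zero]
      exact sum_nonneg fun _ _ => abs_nonneg _
    · rw [if_neg h5]
      have h6 : 3 ∈ (Icc 1 N).filter (fun q : ℕ => (q : ℝ) ≤ (N : ℝ) ^ θ ∧ Nat.Coprime q N) := by
        rw [mem_filter, mem_Icc]
        exact ⟨⟨by norm_num, h3⟩, by exact_mod_cast h2,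
          (Nat.Prime.coprime_iff_not_dvd Nat.prime_three).2 h5⟩
      exact single_le_sum (f := fun q : ℕ =>
        |∑ n ∈ (Ico 1 N).filter (fun n => n ≡ N [MOD q]), ArithmeticFunction.vonMangoldt n * g (N - n) -
          1 / (Nat.totient q : ℝ) * ∑ n ∈ Ico 1 N, ArithmeticFunction.vonMangoldt n * g (N - n)|)
        (fun _ _ => abs_nonneg _) h6)
  obtain ⟨C2, hC2, h2⟩ := psi_unif A hA.le
  obtain ⟨C3, hC3, h3⟩ := chi_unif A hA.le
  obtain ⟨C4, hC4, h4⟩ := P3_unif A hA.le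
  refine ⟨C1 + (C2 + C4 + C3), fun Z hZ => ?_⟩
  have hZ0 : (2 : ℝ) ≤ Z := by exact_mod_cast hZ
  have hZp : (0 : ℝ) < Z := by linarith
  have hl : 0 < Real.log Z := Real.log_pos (by linarith)
  have hlA : 0 < Real.log Z ^ A := Real.rpow_pos_of_pos hl A
  set E : ℝ := Z / Real.log Z ^ A with hE
  have e1 : ∑ N ∈ Icc 1 Z, f3 g N =
      ∑ m ∈ Icc 1 Z, g m * ∑ n ∈ Icc 1 (Z - m), ArithmeticFunction.vonMangoldt n * wm m n := by
    have h5 : ∀ N ∈ Icc 1 Z, f3 g N =
        ∑ n ∈ Ico 1 N, (fun n m => ArithmeticFunction.vonMangoldt n * g m * wm m n) n (N - n) :=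
      fun N _ => f3_eq g N
    rw [sum_congr rfl h5]
    refine (exch (fun n m => ArithmeticFunction.vonMangoldt n * g m * wm m n) Z).trans ?_
    refine sum_congr rfl fun m _ => ?_
    rw [mul_sum]
    refine sum_congr rfl fun n _ => ?_
    ring
  have e2 : ∑ m ∈ Icc 1 Z, g m * Pool.Agent.Q255.EP.c3 m * ((Z : ℝ) - m) =
      ∑ N ∈ Icc 1 Z, f3 g N - ∑ m ∈ Icc 1 Z, g m *
        (∑ n ∈ Icc 1 (Z - m), ArithmeticFunction.vonMangoldt n * wm m n -
          Pool.Agent.Q255.EP.c3 m * ((Z - m : ℕ) : ℝ)) := by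
    rw [e1, ← sum_sub_distrib]
    refine sum_congr rfl fun m hm => ?_
    rw [mem_Icc] at hm
    rw [Nat.cast_sub hm.2]
    ring
  have hcard : ((Icc 1 Z).card : ℝ) = Z := by
    rw [Nat.card_Icc]
    simp
  have b1 : |∑ N ∈ Icc 1 Z, f3 g N| ≤ Z * (C1 * E) := by
    refine (abs_sum_le_sum_abs _ _).trans ?_
    refine (sum_le_card_nsmul _ _ (C1 * E) fun N hN => ?_).trans ?_
    · rw [mem_Icc] at hN
      exact h1 Z N hZ hN.2
    · rw [nsmul_eq_mul, hcard]
  have b2 : |∑ m ∈ Icc 1 Z, g m *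
        (∑ n ∈ Icc 1 (Z - m), ArithmeticFunction.vonMangoldt n * wm m n -
          Pool.Agent.Q255.EP.c3 m * ((Z - m : ℕ) : ℝ))| ≤ Z * ((C2 + C4 + C3) * E) := by
    refine (abs_sum_le_sum_abs _ _).trans ?_
    refine (sum_le_card_nsmul _ _ ((C2 + C4 + C3) * E) fun m hm => ?_).trans ?_
    · have a1 := bracket m (Z - m)
      have a2 := h2 Z (Z - m) hZ (Nat.sub_le _ _)
      have a3 := h3 Z (Z - m) hZ (Nat.sub_le _ _)
      have a4 := h4 Z (Z - m) hZ (Nat.sub_le _ _)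
      rw [abs_mul]
      have a5 : (C2 + C4 + C3) * E = C2 * E + C4 * E + C3 * E := by ring
      rw [a5]
      refine (mul_le_of_le_one_left (abs_nonneg _) (hg m)).trans ?_
      linarith
    · rw [nsmul_eq_mul, hcard]
  rw [e2]
  refine (abs_sub _ _).trans ((add_le_add b1 b2).trans (le_of_eq ?_))
  rw [hE]
  field_simp

end Pool.Agent.Q241.EP
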