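import Pool.Agent.Q255.EP.Stm3
import Pool.Agent.Q14.EP.Diag

/-! # Project EP (helper255), job DIAGL: the diagonal conjecture from the engine with log powers -/

set_option autoImplicit false

namespace Pool.Agent.Q241.EP

open Finset Filter Topology MeasureTheory Pool.Agent.Q255.IC Pool.Agent.Q255.IR Pool.Agent.Q255.EP
open Pool.Agent.Q163.HC Pool.Agent.Q163.RP Pool.Agent.Q14.EP

theorem Dg_le2 (g : ℕ → ℝ) (N : ℕ) (hN : 1 ≤ N) (θ B : ℝ) (hθ0 : 0 ≤ θ) (hθ : θ ≤ 1) (hB : 0 ≤ B)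
    (H : ∀ q : ℕ, 1 ≤ q → (q : ℝ) ≤ (N : ℝ) ^ θ →
      |∑ n ∈ (Ico 1 N).filter (fun n => n ≡ N [MOD q]),
        ArithmeticFunction.vonMangoldt n * g (N - n)| ≤ B * (1 / (q : ℝ))) :
    Dg g N θ ≤ 2 * (1 + Real.log (N + 1)) ^ 2 * B := by
  have hN0 : (1 : ℝ) ≤ N := by exact_mod_cast hN
  have hNp : (0 : ℝ) < N := by linarith
  have hL0 : 0 ≤ Real.log (N + 1) := Real.log_nonneg (by linarith)
  have hLN : Real.log N ≤ Real.log (N + 1) := Real.log_le_log hNp (by linarith)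
  set L : ℝ := Real.log (N + 1) with hL
  have hS1 : |∑ n ∈ Ico 1 N, ArithmeticFunction.vonMangoldt n * g (N - n)| ≤ B := by
    have h1 := H 1 le_rfl (by
      rw [Nat.cast_one]
      exact Real.one_le_rpow hN0 hθ0)
    have h2 : (Ico 1 N).filter (fun n => n ≡ N [MOD 1]) = Ico 1 N :=
      filter_true_of_mem fun n _ => Nat.modEq_one
    rw [h2] at h1
    simpa using h1
  set Q : ℕ := ⌊(N : ℝ) ^ θ⌋₊ with hQ
  have hsub : (Icc 1 N).filter (fun q : ℕ => (q : ℝ) ≤ (N : ℝ) ^ θ ∧ Nat.Coprime q N) ⊆ Icc 1 Q := by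
    intro q hq
    rw [mem_filter, mem_Icc] at hq
    rw [mem_Icc]
    exact ⟨hq.1.1, Nat.le_floor hq.2.1⟩
  have hQN : (Q : ℝ) ≤ (N : ℝ) ^ θ := Nat.floor_le (by positivity)
  have hNθ : (N : ℝ) ^ θ ≤ N := by
    calc (N : ℝ) ^ θ ≤ (N : ℝ) ^ (1 : ℝ) := Real.rpow_le_rpow_of_exponent_le hN0 hθ
      _ = N := Real.rpow_one _
  have hlQ : Real.log Q ≤ L := by
    rcases Nat.eq_zero_or_pos Q with h | h
    · rw [h, Nat.cast_zero, Real.log_zero]
      exact hL0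
    · refine (Real.log_le_log (by exact_mod_cast h) (hQN.trans hNθ)).trans hLN
  have h1 : Dg g N θ ≤ ∑ q ∈ Icc 1 Q, (B * (1 / (q : ℝ)) + 1 / (Nat.totient q : ℝ) * B) := by
    unfold Dg
    refine (sum_le_sum_of_subset_of_nonneg hsub fun _ _ _ => abs_nonneg _).trans ?_
    refine sum_le_sum fun q hq => ?_
    rw [mem_Icc] at hq
    have hqN : (q : ℝ) ≤ (N : ℝ) ^ θ := (by exact_mod_cast hq.2 : (q : ℝ) ≤ Q).trans hQN
    refine (abs_sub _ _).trans (add_le_add (H q hq.1 hqN) ?_)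
    rw [abs_mul, abs_of_nonneg (by positivity : (0 : ℝ) ≤ 1 / (Nat.totient q : ℝ))]
    exact mul_le_mul_of_nonneg_left hS1 (by positivity)
  rw [sum_add_distrib, ← mul_sum, ← sum_mul] at h1
  refine h1.trans ?_
  have hQ0 : 0 ≤ Real.log Q := Real.log_natCast_nonneg Q
  have h4 : ∑ q ∈ Icc 1 Q, 1 / (q : ℝ) ≤ (1 + L) ^ 2 := by
    refine (Pool.Agent.Q163.GC.harm Q).trans ?_
    nlinarith
  have h5 : ∑ q ∈ Icc 1 Q, 1 / (Nat.totient q : ℝ) ≤ (1 + L) ^ 2 := by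
    refine (sum_inv_tot Q).trans (pow_le_pow_left₀ ?_ (by linarith) 2)
    linarith
  have h6 := mul_le_mul_of_nonneg_left h4 hB
  have h7 := mul_le_mul_of_nonneg_right h5 hB
  linarith

/-- the weighted sums for a fixed sequence of signs -/
theorem fix_ω (f : ℕ → ℝ) (a K : ℕ) (C : ℝ) (hC0 : 0 ≤ C)
    (hC : ∀ J : ℕ, ∀ w ∈ (by classical exact (pR a J).image wR : Finset (ℕ → ℝ)),
      |∑ m ∈ Icc 1 (2 ^ J), w m * f m| ≤ C * 2 ^ J / ((J : ℝ) + 1) ^ K)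
    (R N q : ℕ) (hR : 1 ≤ R) (hN1 : 1 ≤ N) (hN : N ≤ R ^ a) (hq1 : 1 ≤ q) (hq : q ≤ R ^ a) (l : Bool) :
    |∑ m ∈ Icc 1 R, wt l N q m * f m| ≤ 8 * C * R / (1 + Real.log R) ^ K := by
  classical
  set J : ℕ := Nat.log 2 R + 1 with hJ
  have hJ1 : R < 2 ^ J := Nat.lt_pow_succ_log_self (by norm_num) R
  have hJ2 : 2 ^ J ≤ 2 * R := by
    rw [hJ, pow_succ']
    exact Nat.mul_le_mul_left 2 (Nat.pow_log_le_self 2 (by omega))
  have hRA : R ^ a ≤ 2 ^ (J * a) := by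
    rw [pow_mul]
    exact Nat.pow_le_pow_left hJ1.le a
  have hmem : wR (l, R, N, q) ∈ (pR a J).image wR := by
    refine Finset.mem_image_of_mem _ ?_
    unfold pR
    rw [Finset.mem_product, Finset.mem_product, Finset.mem_product, Finset.mem_Icc, Finset.mem_Icc,
      Finset.mem_Icc]
    exact ⟨Finset.mem_univ _, ⟨hR, hJ1.le⟩, ⟨hN1, hN.trans hRA⟩, ⟨hq1, hq.trans hRA⟩⟩
  have h3 := hC J (wR (l, R, N, q)) (by convert hmem)
  have h4 : ∑ m ∈ Icc 1 R, wt l N q m * f m =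
      4 * ∑ m ∈ Icc 1 (2 ^ J), wR (l, R, N, q) m * f m := by
    have h5 : ∑ m ∈ Icc 1 (2 ^ J), wR (l, R, N, q) m * f m =
        ∑ m ∈ Icc 1 R, wR (l, R, N, q) m * f m := by
      symm
      refine Finset.sum_subset (Finset.Icc_subset_Icc le_rfl hJ1.le) ?_
      intro m hm hm2
      rw [mem_Icc] at hm hm2
      unfold wR
      rw [if_neg hm2, zero_mul]
    rw [h5, Finset.mul_sum]
    refine Finset.sum_congr rfl fun m hm => ?_
    rw [Finset.mem_Icc] at hm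
    unfold wR
    rw [if_pos hm]
    ring
  have hRp : (0 : ℝ) < R := by exact_mod_cast hR
  have hlR : 0 ≤ Real.log R := Real.log_natCast_nonneg R
  have h6 : 1 + Real.log R ≤ (J : ℝ) + 1 := by
    have h7 : Real.log R ≤ J * Real.log 2 := by
      rw [← Real.log_pow]
      refine Real.log_le_log hRp ?_
      exact_mod_cast hJ1.le
    have h8 : Real.log 2 ≤ 1 := by
      have := Real.log_two_lt_d9
      linarith
    have h9 : (J : ℝ) * Real.log 2 ≤ J * 1 := mul_le_mul_of_nonneg_left h8 (Nat.cast_nonneg J)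
    linarith
  have h7 : (1 + Real.log R) ^ K ≤ ((J : ℝ) + 1) ^ K := pow_le_pow_left₀ (by linarith) h6 K
  have h8 : (0 : ℝ) < (1 + Real.log R) ^ K := by positivity
  have h9 : (2 : ℝ) ^ J ≤ 2 * R := by exact_mod_cast hJ2
  rw [h4, abs_mul, abs_of_pos (show (0 : ℝ) < 4 by norm_num)]
  calc 4 * |∑ m ∈ Icc 1 (2 ^ J), wR (l, R, N, q) m * f m|
      ≤ 4 * (C * 2 ^ J / ((J : ℝ) + 1) ^ K) := mul_le_mul_of_nonneg_left h3 (by norm_num)
    _ ≤ 4 * (C * (2 * R) / (1 + Real.log R) ^ K) := by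
        refine mul_le_mul_of_nonneg_left ?_ (by norm_num)
        exact div_le_div₀ (by positivity) (mul_le_mul_of_nonneg_left h9 hC0) h8 h7
    _ = _ := by ring

theorem diag_final2 (c : ℕ → ℝ) (hc : ∀ p, |c p| = 1) (θ : ℝ) (hθ0 : 0 ≤ θ) (hθ : θ < 1) (a K : ℕ)
    (ha : 2 ≤ (1 - θ) * a) (C : ℝ) (hC0 : 0 ≤ C)
    (H : ∀ R N q : ℕ, 1 ≤ R → 1 ≤ N → N ≤ R ^ a → 1 ≤ q → q ≤ R ^ a → ∀ l,
      |∑ m ∈ Icc 1 R, wt l N q m * mult c m| ≤ 8 * C * R / (1 + Real.log R) ^ K) :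
    ∀ᶠ N : ℕ in atTop, ∀ l, Dg (gf (mult c) l) N θ ≤
      2 * (1 + Real.log (N + 1)) ^ 2 * (Real.log (N + 1) ^ 2 * (8 * C * N / ((1 - θ) / 2 * Real.log N) ^ K)) := by
  have hθ' : 0 < 1 - θ := by linarith
  have h1 : ∀ᶠ N : ℕ in atTop, (4 : ℝ) ≤ (N : ℝ) ^ (1 - θ) :=
    ((tendsto_rpow_atTop hθ').comp tendsto_natCast_atTop_atTop).eventually_ge_atTop _
  filter_upwards [h1, eventually_ge_atTop (2 ^ a), eventually_ge_atTop 2] with N h4 hN2 hN l
  have hN0 : (2 : ℝ) ≤ N := by exact_mod_cast hN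
  have hNp : (0 : ℝ) < N := by linarith
  have hlN : 0 < Real.log N := Real.log_pos (by linarith)
  have hden : 0 < ((1 - θ) / 2 * Real.log N) ^ K := by positivity
  refine Dg_le2 _ N (by omega) θ _ hθ0 hθ.le (by positivity) fun q hq hqN => ?_
  have hq0 : (0 : ℝ) < q := by exact_mod_cast hq
  have hM : (N : ℝ) ^ (1 - θ) / 2 ≤ (((N - 1) / q : ℕ) : ℝ) := by
    have h2 : ((N - 1 : ℕ) : ℝ) / q - 1 < (((N - 1) / q : ℕ) : ℝ) := by
      have h3 := Nat.lt_floor_add_one (((N - 1 : ℕ) : ℝ) / q)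
      rw [Nat.floor_div_eq_div] at h3
      linarith
    have h3 : (N : ℝ) ^ (1 - θ) - 1 ≤ ((N - 1 : ℕ) : ℝ) / q := by
      rw [le_div_iff₀ hq0, Nat.cast_sub (by omega), Nat.cast_one]
      have h5 : (N : ℝ) ^ (1 - θ) * (N : ℝ) ^ θ = N := by
        rw [← Real.rpow_add hNp]
        norm_num
      have h6 : ((N : ℝ) ^ (1 - θ) - 1) * q ≤ ((N : ℝ) ^ (1 - θ) - 1) * (N : ℝ) ^ θ :=
        mul_le_mul_of_nonneg_left hqN (by linarith)
      have h7 : (1 : ℝ) ≤ (N : ℝ) ^ θ := Real.one_le_rpow (by linarith) hθ0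
      linarith
    linarith
  have hR1 : 1 ≤ (N - 1) / q := by
    have : (1 : ℝ) ≤ (((N - 1) / q : ℕ) : ℝ) := by linarith
    exact_mod_cast this
  have hMA : (N : ℝ) ≤ ((((N - 1) / q) ^ a : ℕ) : ℝ) := by
    push_cast
    have h5 : (N : ℝ) ^ (1 - θ) / 2 ≤ (((N - 1) / q : ℕ) : ℝ) := hM
    have h6 : ((N : ℝ) ^ (1 - θ) / 2) ^ a ≤ (((N - 1) / q : ℕ) : ℝ) ^ a :=
      pow_le_pow_left₀ (by positivity) h5 a
    refine le_trans ?_ h6
    rw [div_pow, le_div_iff₀ (by positivity), ← Real.rpow_natCast ((N : ℝ) ^ (1 - θ)),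
      ← Real.rpow_mul hNp.le]
    have h7 : (2 : ℝ) ^ a ≤ N := by exact_mod_cast hN2
    calc (N : ℝ) * 2 ^ a ≤ N * N := mul_le_mul_of_nonneg_left h7 hNp.le
      _ = (N : ℝ) ^ (2 : ℝ) := by
          rw [Real.rpow_two]
          ring
      _ ≤ (N : ℝ) ^ ((1 - θ) * a) := Real.rpow_le_rpow_of_exponent_le (by linarith) ha
  have hNa : N ≤ ((N - 1) / q) ^ a := by exact_mod_cast hMA
  have hqN' : q ≤ N := by
    have h5 : (N : ℝ) ^ θ ≤ N := by
      calc (N : ℝ) ^ θ ≤ (N : ℝ) ^ (1 : ℝ) := Real.rpow_le_rpow_of_exponent_le (by linarith) hθ.le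
        _ = N := Real.rpow_one _
    exact_mod_cast hqN.trans h5
  have h5 := H ((N - 1) / q) N q hR1 (by omega) hNa hq (hqN'.trans hNa) l
  have h6 := diag_wt c hc l N q (by omega) hq
  have h7 : (1 - θ) / 2 * Real.log N ≤ 1 + Real.log (((N - 1) / q : ℕ) : ℝ) := by
    have h8 : Real.log ((N : ℝ) ^ (1 - θ) / 2) ≤ Real.log (((N - 1) / q : ℕ) : ℝ) :=
      Real.log_le_log (by positivity) hM
    rw [Real.log_div (by positivity) (by norm_num), Real.log_rpow hNp] at h8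
    have h9 : Real.log 2 ≤ 1 := by
      have := Real.log_two_lt_d9
      linarith
    have h10 : 0 < (1 - θ) * Real.log N := mul_pos hθ' hlN
    linarith
  have h8 : ((1 - θ) / 2 * Real.log N) ^ K ≤ (1 + Real.log (((N - 1) / q : ℕ) : ℝ)) ^ K :=
    pow_le_pow_left₀ (by positivity) h7 K
  have h9 : (((N - 1) / q : ℕ) : ℝ) ≤ N * (1 / (q : ℝ)) := by
    refine (Nat.cast_div_le).trans ?_
    rw [mul_one_div]
    refine div_le_div_of_nonneg_right ?_ hq0.le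
    exact_mod_cast Nat.sub_le N 1
  have h10 : 8 * C * (((N - 1) / q : ℕ) : ℝ) / (1 + Real.log (((N - 1) / q : ℕ) : ℝ)) ^ K ≤
      8 * C * (N * (1 / (q : ℝ))) / ((1 - θ) / 2 * Real.log N) ^ K :=
    div_le_div₀ (by positivity) (mul_le_mul_of_nonneg_left h9 (by positivity)) hden h8
  refine h6.trans ?_
  calc Real.log (N + 1) ^ 2 * |∑ m ∈ Icc 1 ((N - 1) / q), wt l N q m * mult c m|
      ≤ Real.log (N + 1) ^ 2 * (8 * C * (N * (1 / (q : ℝ))) / ((1 - θ) / 2 * Real.log N) ^ K) :=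
        mul_le_mul_of_nonneg_left (h5.trans h10) (by positivity)
    _ = _ := by ring

/-- JOB DIAGL -/
theorem diagL (h : S_ENGL) : S_DIAGL := by
  classical
  intro ν _ hD
  have h1 : ∀ᵐ ω ∂ν, ∀ a K : ℕ, ∃ C : ℝ, ∀ J : ℕ, ∀ w ∈ (pR a J).image wR,
      |∑ m ∈ Finset.Icc 1 (2 ^ J), w m * cm ω m| ≤ C * 2 ^ J / ((J : ℝ) + 1) ^ K := by
    rw [ae_all_iff]
    intro a
    refine h ν hD (fun J => (pR a J).image wR) ((2 * a + 1 : ℕ) : ℝ) ?_ ?_ ?_
    · intro J w hw m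
      obtain ⟨t, _, rfl⟩ := Finset.mem_image.1 hw
      exact abs_wR t m
    · intro J w hw m hm
      obtain ⟨t, ht, rfl⟩ := Finset.mem_image.1 hw
      unfold pR at ht
      rw [Finset.mem_product, Finset.mem_product, Finset.mem_Icc] at ht
      unfold wR
      rw [if_neg]
      rintro ⟨_, h2⟩
      have := ht.2.1.2
      omega
    · intro J
      refine le_trans ?_ (card_pR a J)
      exact_mod_cast Finset.card_image_le
  filter_upwards [h1] with ω hω θ hθ0 hθ A hA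
  have hθ' : 0 < 1 - θ := by linarith
  have hc : ∀ p, |(fun p => sg ω (Nat.count Nat.Prime p)) p| = 1 := by
    intro p
    simp only
    unfold Pool.Agent.Q255.IC.sg
    split_ifs <;> simp
  obtain ⟨a, ha⟩ := exists_nat_ge (2 / (1 - θ))
  have ha1 : 2 ≤ (1 - θ) * a := by
    rw [div_le_iff₀ hθ'] at ha
    linarith
  obtain ⟨K0, hK0⟩ := exists_nat_ge A
  obtain ⟨C, hC⟩ := hω a (K0 + 4)
  have hC' : ∀ J : ℕ, ∀ w ∈ (pR a J).image wR,
      |∑ m ∈ Icc 1 (2 ^ J), w m * cm ω m| ≤ |C| * 2 ^ J / ((J : ℝ) + 1) ^ (K0 + 4) := by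
    intro J w hw
    refine (hC J w hw).trans ?_
    refine div_le_div_of_nonneg_right ?_ (by positivity)
    exact mul_le_mul_of_nonneg_right (le_abs_self C) (by positivity)
  have h2 := diag_final2 (fun p => sg ω (Nat.count Nat.Prime p)) hc θ hθ0.le hθ a (K0 + 4) ha1 |C|
    (abs_nonneg C) (fun R N q hR hN1 hN hq1 hq l => by
      rw [← cm_eq]
      refine fix_ω (cm ω) a (K0 + 4) |C| (abs_nonneg C) ?_ R N q hR hN1 hN hq1 hq l
      intro J w hw
      exact hC' J w (by convert hw))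
  refine ⟨2 * 16 * (4 * (8 * |C| / ((1 - θ) / 2) ^ (K0 + 4))), ?_⟩
  filter_upwards [h2, eventually_ge_atTop 3] with N hN hN3 l
  rw [cm_eq]
  refine (hN l).trans ?_
  have hN0 : (3 : ℝ) ≤ N := by exact_mod_cast hN3
  have hNp : (0 : ℝ) < N := by linarith
  have hlN1 : 1 ≤ Real.log N := by
    rw [Real.le_log_iff_exp_le hNp]
    have := Real.exp_one_lt_d9
    linarith
  have hlN : 0 < Real.log N := by linarith
  have h3 : Real.log (N + 1) ≤ 2 * Real.log N := by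
    have h4 : Real.log (N + 1) ≤ Real.log ((N : ℝ) ^ 2) := by
      refine Real.log_le_log (by linarith) ?_
      nlinarith
    rwa [Real.log_pow, Nat.cast_ofNat] at h4
  have h30 : 0 ≤ Real.log (N + 1) := Real.log_nonneg (by linarith)
  have h4 : (1 + Real.log (N + 1)) ^ 2 ≤ 16 * Real.log N ^ 2 := by
    have h5 : 1 + Real.log (N + 1) ≤ 4 * Real.log N := by linarith
    have h6 := pow_le_pow_left₀ (by linarith) h5 2
    calc _ ≤ _ := h6
      _ = _ := by ring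
  have h5 : Real.log (N + 1) ^ 2 ≤ 4 * Real.log N ^ 2 := by
    have h6 := pow_le_pow_left₀ h30 h3 2
    calc _ ≤ _ := h6
      _ = _ := by ring
  have h6 : (0 : ℝ) < (1 - θ) / 2 := by linarith
  have h7 : 8 * |C| * N / ((1 - θ) / 2 * Real.log N) ^ (K0 + 4) =
      (8 * |C| / ((1 - θ) / 2) ^ (K0 + 4)) * N / Real.log N ^ (K0 + 4) := by
    rw [mul_pow]
    field_simp
  rw [h7]
  set D : ℝ := 8 * |C| / ((1 - θ) / 2) ^ (K0 + 4) with hDd
  have hD0 : 0 ≤ D := by positivity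
  have h8 : 2 * (1 + Real.log (N + 1)) ^ 2 * (Real.log (N + 1) ^ 2 * (D * N / Real.log N ^ (K0 + 4))) ≤
      2 * (16 * Real.log N ^ 2) * (4 * Real.log N ^ 2 * (D * N / Real.log N ^ (K0 + 4))) := by
    refine mul_le_mul ?_ ?_ (by positivity) (by positivity)
    · exact mul_le_mul_of_nonneg_left h4 (by norm_num)
    · exact mul_le_mul_of_nonneg_right h5 (by positivity)
  refine h8.trans ?_
  have h9 : 2 * (16 * Real.log N ^ 2) * (4 * Real.log N ^ 2 * (D * N / Real.log N ^ (K0 + 4))) =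
      2 * 16 * (4 * D) * (N * (Real.log N ^ K0)⁻¹) := by
    rw [pow_add]
    field_simp
  rw [h9]
  refine mul_le_mul_of_nonneg_left ?_ (by positivity)
  refine mul_le_mul_of_nonneg_left ?_ hNp.le
  rw [Real.rpow_neg hlN.le]
  refine inv_anti₀ (by positivity) ?_
  rw [← Real.rpow_natCast]
  exact Real.rpow_le_rpow_of_exponent_le hlN1 hK0

end Pool.Agent.Q241.EP
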